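import Pool.Agent.W_MP_4481e3_low.MainLow
import Pool.Agent.W_MP_4481e3_low.Cert3
import Pool.Agent.W_MP_4481e3_low.Cert4
import Pool.Agent.W_MP_4481e3_low.Cert5

open MeasureTheory Set Pool.Agent.W_MP_4481e3_an

/-- For every integer `L ≥ 3` and every complex `α`, `0 < |α| < 1`, with negative fibre Lyapunov
exponents at `0` and `1`: for Lebesgue almost every `u ∈ [0,1)` the random Fatou set `F_u` of the
holomorphic Kan-type skew product is equal to the combined basin of `0, 1, ∞` at `u`. -/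
theorem Pool.Agent.W_4481e3_q72.from_three (L : ℕ) (hL : 3 ≤ L) (α : ℂ)
    (hα0 : 0 < ‖α‖) (hα1 : ‖α‖ < 1)
    (h0 : ∫ u in (0 : ℝ)..1, Real.log ‖1 + α * (Real.cos (2 * Real.pi * u) : ℂ)‖ < 0)
    (h1 : ∫ u in (0 : ℝ)..1, Real.log ‖1 - α * (Real.cos (2 * Real.pi * u) : ℂ)‖ < 0) :
    ∀ᵐ u ∂(volume.restrict (Ico (0 : ℝ) 1)), randomFatou α L u = combinedBasin α L u := by
  have h : ∀ x : ℝ, logf (-α) x = Real.log ‖1 - α * (Real.cos (2 * Real.pi * x) : ℂ)‖ := by
    intro x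
    unfold logf
    rw [neg_mul, sub_eq_add_neg]
  have h1' : ∫ x in (0:ℝ)..1, logf (-α) x < 0 := by
    simp_rw [h]
    exact h1
  rcases Nat.lt_or_ge L 6 with hL6 | hL6
  · interval_cases L
    · exact main_low (by norm_num) Ev.cert3 hα0 hα1 h0 h1'
    · exact main_low (by norm_num) Ev.cert4 hα0 hα1 h0 h1'
    · exact main_low (by norm_num) Ev.cert5 hα0 hα1 h0 h1'
  · exact main hL6 hα0 hα1 h0 h1'
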