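import Pool.Agent.W_4481e3_h58.RealTwo
import Pool.Agent.W_4481_h69.GainAll

open MeasureTheory Set Pool.Agent.W_MP_4481e3_an

/-- Base `L = 2`, real parameter: for every real `a` with `0 < |a| < 1` (both fibre Lyapunov
exponents are then automatically negative) and Lebesgue almost every `u ∈ [0,1)`, the random Fatou
set `F_u` of the Kan-type skew product is equal to the combined basin of `0, 1, ∞` at `u`. -/
theorem Pool.Agent.W_4481e3_q72.two_real (a : ℝ) (ha0 : 0 < |a|)
    (ha1 : |a| < 1) :
    ∀ᵐ u ∂(volume.restrict (Ico (0 : ℝ) 1)),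
      randomFatou (a : ℂ) 2 u = combinedBasin (a : ℂ) 2 u := by
  have hn : ‖((|a| : ℝ) : ℂ)‖ = |a| := by rw [Complex.norm_real, Real.norm_eq_abs, abs_abs]
  refine main_two_real ha0 ha1 (gain_all ?_ ?_ ?_)
  · rw [← norm_pos_iff, hn]; exact ha0
  · rw [hn]; exact ha1
  · rw [Complex.ofReal_im, Complex.ofReal_re, abs_zero]; exact ha0
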